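import Mathlib
import Pool.Agent.H257R5.Six.AT
set_option autoImplicit false

/-! Part of the proof that `c(4,3,2) ≤ 5` (MP_8fca14_co).  Plan: helper257; this file: helper584. -/
namespace H257R5.TL
open H257R5.T


/-- TARGET. -/
theorem ATline {α : Type*} [Fintype α] (f : EuclideanSpace ℝ (Fin 2) →L[ℝ] ℝ) (hf : f ≠ 0) (u : ℝ)
    (K Kp Km : α → Set (EuclideanSpace ℝ (Fin 2)))
    (hK : ∀ i, Convex ℝ (K i) ∧ IsCompact (K i)) (hcross : ∀ i, ∃ x ∈ K i, f x = u)
    (hKp : ∀ i, (Kp i).Nonempty ∧ Convex ℝ (Kp i) ∧ IsCompact (Kp i))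
    (hKm : ∀ i, (Km i).Nonempty ∧ Convex ℝ (Km i) ∧ IsCompact (Km i))
    (dj : α → α → Prop) (hdj : ∀ i j, dj i j ↔ ∀ x, x ∈ K i → x ∈ K j → f x ≠ u)
    (c : α → α → Prop) (hc : ∀ i j, c i j ↔ c j i)
    (hL : ∀ i j k, dj i j → dj j k → dj i k → c i j → c j k → c i k → ∃ y, y ∈ Kp i ∧ y ∈ Kp j ∧ y ∈ Kp k)
    (hR : ∀ i j k, dj i j → dj j k → dj i k → ¬ c i j → ¬ c j k → ¬ c i k → ∃ y, y ∈ Km i ∧ y ∈ Km j ∧ y ∈ Km k)
    (hAC : ∀ i j k m, dj i j → dj j k → dj k m → dj m i → c i j → ¬ c j k → c k m → c m i) :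
    ∃ P : Finset (EuclideanSpace ℝ (Fin 2)), P.card ≤ 3 ∧ ∃ qp qm : EuclideanSpace ℝ (Fin 2),
      ∀ i, (∃ x ∈ P, x ∈ K i) ∨ qp ∈ Kp i ∨ qm ∈ Km i := by
  classical
  -- coordinates of `f`
  set g := (InnerProductSpace.toDual ℝ (EuclideanSpace ℝ (Fin 2))).symm f with hg
  have hf' : ∀ x, f x = g 0 * x 0 + g 1 * x 1 := by
    intro x
    rw [← InnerProductSpace.toDual_symm_apply, ← hg, PiLp.inner_apply, Fin.sum_univ_two]
    simp [mul_comm]
  set n : ℝ := g 0 ^ 2 + g 1 ^ 2 with hn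
  have hnpos : 0 < n := by
    rcases (by positivity : 0 ≤ n).lt_or_eq with h | h
    · exact h
    · exfalso
      have h0 : g 0 = 0 := by nlinarith [sq_nonneg (g 0), sq_nonneg (g 1)]
      have h1 : g 1 = 0 := by nlinarith [sq_nonneg (g 0), sq_nonneg (g 1)]
      apply hf
      ext x
      rw [hf', h0, h1]
      simp
  let P : ℝ → EuclideanSpace ℝ (Fin 2) := fun t => !₂[u / n * g 0 - t * g 1, u / n * g 1 + t * g 0]
  let τ : EuclideanSpace ℝ (Fin 2) → ℝ := fun x => (-(g 1) * x 0 + g 0 * x 1) / n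
  have hPτ : ∀ x, f x = u → P (τ x) = x := by
    intro x hx
    rw [hf'] at hx
    ext i
    fin_cases i
    · change u / n * g 0 - (-(g 1) * x 0 + g 0 * x 1) / n * g 1 = x 0
      field_simp
      rw [← hx, hn]
      ring
    · change u / n * g 1 + (-(g 1) * x 0 + g 0 * x 1) / n * g 0 = x 1
      field_simp
      rw [← hx, hn]
      ring
  have hτc : Continuous τ := by
    have h0 : Continuous fun x : EuclideanSpace ℝ (Fin 2) => x 0 := by fun_prop
    have h1 : Continuous fun x : EuclideanSpace ℝ (Fin 2) => x 1 := by fun_prop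
    exact ((continuous_const.mul h0).add (continuous_const.mul h1)).div_const n
  let T : α → Set ℝ := fun i => τ '' (K i ∩ {x | f x = u})
  have hTcp : ∀ i, IsCompact (T i) := fun i =>
    (((hK i).2).inter_right (isClosed_eq f.continuous continuous_const)).image hτc
  have hTne : ∀ i, (T i).Nonempty := by
    intro i
    obtain ⟨z, hz, hfz⟩ := hcross i
    exact ⟨τ z, z, ⟨hz, hfz⟩, rfl⟩
  have hTpc : ∀ i, IsPreconnected (T i) := by
    intro i
    refine IsPreconnected.image (Convex.isPreconnected ?_) _ hτc.continuousOn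
    refine ((hK i).1).inter ?_
    intro x hx y hy a b ha hb hab
    change f (a • x + b • y) = u
    change f x = u at hx
    change f y = u at hy
    rw [map_add, map_smul, map_smul, hx, hy, smul_eq_mul, smul_eq_mul, ← add_mul, hab, one_mul]
  let l : α → ℝ := fun i => sInf (T i)
  let r : α → ℝ := fun i => sSup (T i)
  have hTI : ∀ i, T i = Set.Icc (l i) (r i) := fun i =>
    eq_Icc_of_connected_compact ⟨hTne i, hTpc i⟩ (hTcp i)
  have hlr : ∀ i, l i ≤ r i := by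
    intro i
    obtain ⟨t, ht⟩ := hTne i
    rw [hTI i] at ht
    exact ht.1.trans ht.2
  have hPT : ∀ i, ∀ t, l i ≤ t → t ≤ r i → P t ∈ K i ∧ f (P t) = u ∧ τ (P t) = t := by
    intro i t h1 h2
    have ht : t ∈ T i := by rw [hTI i]; exact ⟨h1, h2⟩
    obtain ⟨x, ⟨hx, hfx⟩, rfl⟩ := ht
    rw [hPτ x hfx]
    exact ⟨hx, hfx, rfl⟩
  have hdj' : ∀ i j, dj i j ↔ (r i < l j ∨ r j < l i) := by
    intro i j
    rw [hdj]
    constructor
    · intro h
      by_contra hcon
      rw [not_or, not_lt, not_lt] at hcon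
      -- common point `max (l i) (l j)`
      have h1 := hPT i (max (l i) (l j)) (le_max_left _ _) (max_le (hlr i) hcon.1)
      have h2 := hPT j (max (l i) (l j)) (le_max_right _ _) (max_le hcon.2 (hlr j))
      exact h _ h1.1 h2.1 h1.2.1
    · intro h x hxi hxj hfx
      have h1 : τ x ∈ T i := ⟨x, ⟨hxi, hfx⟩, rfl⟩
      have h2 : τ x ∈ T j := ⟨x, ⟨hxj, hfx⟩, rfl⟩
      rw [hTI] at h1 h2
      rcases h with h | h
      · linarith [h1.2, h2.1]
      · linarith [h2.2, h1.1]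
  obtain ⟨a, qp, qm, h⟩ := AT l r hlr Kp Km hKp hKm dj hdj' c hc hL hR hAC
  refine ⟨{P (a 0), P (a 1), P (a 2)}, Finset.card_le_three, qp, qm, fun i => ?_⟩
  rcases h i with ⟨t, h1, h2⟩ | h' | h'
  · left
    refine ⟨P (a t), ?_, (hPT i (a t) h1 h2).1⟩
    fin_cases t <;> simp
  · exact Or.inr (Or.inl h')
  · exact Or.inr (Or.inr h')


end H257R5.TL
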