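import Mathlib
import Pool.Agent.H257R5.Five.ATline
set_option autoImplicit false

/-! Part of the proof that `c(4,3,2) ≤ 5` (MP_8fca14_co).  Plan: helper257; this file: helper723. -/
namespace H257R5.L
open H257R5.TL


theorem two_of {ι : Type*} [DecidableEq ι] {s t : Finset ι} (hs : s.card = 4) (hts : t ⊆ s)
    (ht : t.card = 3) {p q : ι} (hp : p ∈ s) (hq : q ∈ s) (hpq : p ≠ q) : p ∈ t ∨ q ∈ t := by
  by_contra hcon
  rw [not_or] at hcon
  have h1 : t ⊆ (s.erase p).erase q := by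
    intro x hx
    refine Finset.mem_erase.2 ⟨?_, Finset.mem_erase.2 ⟨?_, hts hx⟩⟩
    · rintro rfl; exact hcon.2 hx
    · rintro rfl; exact hcon.1 hx
  have h2 := Finset.card_le_card h1
  rw [Finset.card_erase_of_mem (Finset.mem_erase.2 ⟨hpq.symm, hq⟩), Finset.card_erase_of_mem hp]
    at h2
  omega

theorem card4 {ι : Type*} [DecidableEq ι] {a b c d : ι} (hab : a ≠ b) (hac : a ≠ c) (had : a ≠ d)
    (hbc : b ≠ c) (hbd : b ≠ d) (hcd : c ≠ d) : ({a, b, c, d} : Finset ι).card = 4 := by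
  rw [Finset.card_insert_of_notMem, Finset.card_insert_of_notMem, Finset.card_insert_of_notMem,
    Finset.card_singleton]
  all_goals simp_all

/-- TARGET. -/
theorem thmL {ι : Type*} [Fintype ι] [DecidableEq ι] (K : ι → Set (EuclideanSpace ℝ (Fin 2)))
    (hK : ∀ i, (K i).Nonempty ∧ Convex ℝ (K i) ∧ IsCompact (K i))
    (h43 : ∀ s : Finset ι, s.card = 4 → ∃ t ⊆ s, t.card = 3 ∧ ∃ x, ∀ i ∈ t, x ∈ K i)
    (hpair : ∀ i j, (K i ∩ K j).Nonempty)
    (A B : ι) (f : EuclideanSpace ℝ (Fin 2) →L[ℝ] ℝ) (hf : f ≠ 0) (u : ℝ)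
    (hA : ∀ x ∈ K A, f x ≤ u) (hB : ∀ x ∈ K B, u ≤ f x) :
    ∃ P : Finset (EuclideanSpace ℝ (Fin 2)), P.card ≤ 5 ∧ ∀ i, ∃ x ∈ P, x ∈ K i := by
  classical
  have hcv : ∀ i, Convex ℝ (K i) := fun i => (hK i).2.1
  have hcp : ∀ i, IsCompact (K i) := fun i => (hK i).2.2
  have hseg : ∀ S : Set (EuclideanSpace ℝ (Fin 2)), Convex ℝ S → ∀ x ∈ S, ∀ y ∈ S, f x ≤ u →
      u ≤ f y → ∃ z ∈ S, f z = u := by
    intro S hS x hx y hy h1 h2
    exact (hS.isPreconnected.intermediate_value hx hy f.continuous.continuousOn) ⟨h1, h2⟩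
  have hcross : ∀ i, ∃ x ∈ K i, f x = u := by
    intro i
    obtain ⟨x, hx1, hx2⟩ := hpair i A
    obtain ⟨y, hy1, hy2⟩ := hpair i B
    exact hseg (K i) (hcv i) x hx1 y hy1 (hA x hx2) (hB y hy2)
  let dj : ι → ι → Prop := fun i j => ∀ x, x ∈ K i → x ∈ K j → f x ≠ u
  let c : ι → ι → Prop := fun i j => ∃ x, x ∈ K i ∧ x ∈ K j ∧ f x < u
  have hc : ∀ i j, c i j ↔ c j i := fun i j =>
    ⟨fun ⟨x, h1, h2, h3⟩ => ⟨x, h2, h1, h3⟩, fun ⟨x, h1, h2, h3⟩ => ⟨x, h2, h1, h3⟩⟩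
  have hne' : ∀ i j, dj i j → i ≠ j := by
    intro i j h hij
    subst hij
    obtain ⟨x, hx, hfx⟩ := hcross i
    exact h x hx hx hfx
  have h1 : ∀ i j, dj i j → c i j → ∀ x, x ∈ K i → x ∈ K j → f x < u := by
    intro i j hd hcij x hxi hxj
    by_contra hcon
    obtain ⟨y, hyi, hyj, hfy⟩ := hcij
    obtain ⟨z, ⟨hzi, hzj⟩, hfz⟩ := hseg (K i ∩ K j) ((hcv _).inter (hcv _)) y ⟨hyi, hyj⟩ x
      ⟨hxi, hxj⟩ hfy.le (not_lt.1 hcon)
    exact hd z hzi hzj hfz
  have h2 : ∀ i j, dj i j → ¬ c i j → ∀ x, x ∈ K i → x ∈ K j → u < f x := by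
    intro i j hd hcij x hxi hxj
    rcases lt_trichotomy (f x) u with h | h | h
    · exact absurd ⟨x, hxi, hxj, h⟩ hcij
    · exact absurd h (hd x hxi hxj)
    · exact h
  -- three sets
  have htri : ∀ (D i j k : ι), D ≠ i → D ≠ j → D ≠ k → i ≠ j → j ≠ k → i ≠ k →
      (∀ x, x ∈ K i → x ∈ K j → x ∉ K D) → (∀ x, x ∈ K j → x ∈ K k → x ∉ K D) →
      (∀ x, x ∈ K i → x ∈ K k → x ∉ K D) → ∃ x, x ∈ K i ∧ x ∈ K j ∧ x ∈ K k := by
    intro D i j k hDi hDj hDk hij hjk hik e1 e2 e3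
    have hs := card4 hij hik hDi.symm hjk hDj.symm hDk.symm
    obtain ⟨t, hts, ht, x, hx⟩ := h43 _ hs
    have mi : i ∈ ({i, j, k, D} : Finset ι) := by simp
    have mj : j ∈ ({i, j, k, D} : Finset ι) := by simp
    have mk : k ∈ ({i, j, k, D} : Finset ι) := by simp
    have mD : D ∈ ({i, j, k, D} : Finset ι) := by simp
    have hDt : D ∉ t := by
      intro hDt
      by_cases hi : i ∈ t
      · rcases two_of hs hts ht mj mk hjk with hj | hk
        · exact e1 x (hx _ hi) (hx _ hj) (hx _ hDt)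
        · exact e3 x (hx _ hi) (hx _ hk) (hx _ hDt)
      · have hj := (two_of hs hts ht mj mi hij.symm).resolve_right hi
        have hk := (two_of hs hts ht mk mi hik.symm).resolve_right hi
        exact e2 x (hx _ hj) (hx _ hk) (hx _ hDt)
    exact ⟨x, hx _ ((two_of hs hts ht mi mD hDi.symm).resolve_right hDt),
      hx _ ((two_of hs hts ht mj mD hDj.symm).resolve_right hDt),
      hx _ ((two_of hs hts ht mk mD hDk.symm).resolve_right hDt)⟩
  have hle : Convex ℝ {x : EuclideanSpace ℝ (Fin 2) | f x ≤ u} :=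
    convex_halfSpace_le f.toLinearMap.isLinear u
  have hge : Convex ℝ {x : EuclideanSpace ℝ (Fin 2) | u ≤ f x} :=
    convex_halfSpace_ge f.toLinearMap.isLinear u
  have cle : IsClosed {x : EuclideanSpace ℝ (Fin 2) | f x ≤ u} :=
    isClosed_le f.continuous continuous_const
  have cge : IsClosed {x : EuclideanSpace ℝ (Fin 2) | u ≤ f x} :=
    isClosed_le continuous_const f.continuous
  have hKp : ∀ i, (K i ∩ {x | f x ≤ u}).Nonempty ∧ Convex ℝ (K i ∩ {x | f x ≤ u}) ∧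
      IsCompact (K i ∩ {x | f x ≤ u}) := by
    intro i
    obtain ⟨x, hx, hfx⟩ := hcross i
    exact ⟨⟨x, hx, hfx.le⟩, (hcv _).inter hle, (hcp _).inter_right cle⟩
  have hKm : ∀ i, (K i ∩ {x | u ≤ f x}).Nonempty ∧ Convex ℝ (K i ∩ {x | u ≤ f x}) ∧
      IsCompact (K i ∩ {x | u ≤ f x}) := by
    intro i
    obtain ⟨x, hx, hfx⟩ := hcross i
    exact ⟨⟨x, hx, hfx.ge⟩, (hcv _).inter hge, (hcp _).inter_right cge⟩
  -- no point of `K B` lies left of the line, no point of `K A` lies right of it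
  have hnB : ∀ i j, c i j → B ≠ i := by
    rintro i j ⟨x, hxi, -, hx⟩ rfl
    exact absurd (hB x hxi) (not_le.2 hx)
  have hnA : ∀ i j, dj i j → ¬ c i j → A ≠ i := by
    rintro i j hd hcij rfl
    obtain ⟨x, hxi, hxj⟩ := hpair A j
    exact absurd (hA x hxi) (not_le.2 (h2 _ _ hd hcij x hxi hxj))
  have hdjs : ∀ i j, dj i j → dj j i := fun i j h x hj hi => h x hi hj
  have hL : ∀ i j k, dj i j → dj j k → dj i k → c i j → c j k → c i k →
      ∃ y, y ∈ K i ∩ {x | f x ≤ u} ∧ y ∈ K j ∩ {x | f x ≤ u} ∧ y ∈ K k ∩ {x | f x ≤ u} := by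
    intro i j k dij djk dik cij cjk cik
    obtain ⟨x, hxi, hxj, hxk⟩ := htri B i j k (hnB i j cij) (hnB j k cjk)
      (hnB k i ((hc _ _).1 cik)) (hne' i j dij) (hne' j k djk) (hne' i k dik)
      (fun x hx hy hxB => absurd (hB x hxB) (not_le.2 (h1 i j dij cij x hx hy)))
      (fun x hx hy hxB => absurd (hB x hxB) (not_le.2 (h1 j k djk cjk x hx hy)))
      (fun x hx hy hxB => absurd (hB x hxB) (not_le.2 (h1 i k dik cik x hx hy)))
    have hx := (h1 i j dij cij x hxi hxj).le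
    exact ⟨x, ⟨hxi, hx⟩, ⟨hxj, hx⟩, ⟨hxk, hx⟩⟩
  have hR : ∀ i j k, dj i j → dj j k → dj i k → ¬ c i j → ¬ c j k → ¬ c i k →
      ∃ y, y ∈ K i ∩ {x | u ≤ f x} ∧ y ∈ K j ∩ {x | u ≤ f x} ∧ y ∈ K k ∩ {x | u ≤ f x} := by
    intro i j k dij djk dik cij cjk cik
    obtain ⟨x, hxi, hxj, hxk⟩ := htri A i j k (hnA i j dij cij) (hnA j k djk cjk)
      (hnA k i (hdjs _ _ dik) (fun h => cik ((hc _ _).1 h))) (hne' i j dij) (hne' j k djk)
      (hne' i k dik)
      (fun x hx hy hxA => absurd (hA x hxA) (not_le.2 (h2 i j dij cij x hx hy)))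
      (fun x hx hy hxA => absurd (hA x hxA) (not_le.2 (h2 j k djk cjk x hx hy)))
      (fun x hx hy hxA => absurd (hA x hxA) (not_le.2 (h2 i k dik cik x hx hy)))
    have hx := (h2 i j dij cij x hxi hxj).le
    exact ⟨x, ⟨hxi, hx⟩, ⟨hxj, hx⟩, ⟨hxk, hx⟩⟩
  have hAC : ∀ i j k m, dj i j → dj j k → dj k m → dj m i → c i j → ¬ c j k → c k m → c m i := by
    intro i j k m dij djk dkm dmi cij cjk ckm
    by_contra cmi
    have hik : i ≠ k := by
      intro h
      subst h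
      exact cjk ((hc _ _).1 cij)
    have hjm : j ≠ m := by
      intro h
      subst h
      exact cjk ((hc _ _).1 ckm)
    have hij := hne' i j dij
    have hjk := hne' j k djk
    have hkm := hne' k m dkm
    have hmi := hne' m i dmi
    have hs := card4 hij hik hmi.symm hjk hjm hkm
    obtain ⟨t, hts, ht, x, hx⟩ := h43 _ hs
    have mi : i ∈ ({i, j, k, m} : Finset ι) := by simp
    have mj : j ∈ ({i, j, k, m} : Finset ι) := by simp
    have mk : k ∈ ({i, j, k, m} : Finset ι) := by simp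
    have mm : m ∈ ({i, j, k, m} : Finset ι) := by simp
    have fij : i ∈ t → j ∈ t → f x < u := fun hi hj => h1 i j dij cij x (hx _ hi) (hx _ hj)
    have fkm : k ∈ t → m ∈ t → f x < u := fun hi hj => h1 k m dkm ckm x (hx _ hi) (hx _ hj)
    have fjk : j ∈ t → k ∈ t → u < f x := fun hi hj => h2 j k djk cjk x (hx _ hi) (hx _ hj)
    have fmi : m ∈ t → i ∈ t → u < f x := fun hi hj => h2 m i dmi cmi x (hx _ hi) (hx _ hj)
    by_cases hi : i ∈ t
    · by_cases hj : j ∈ t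
      · have g1 := fij hi hj
        rcases two_of hs hts ht mk mm hkm with hk | hm
        · linarith [fjk hj hk]
        · linarith [fmi hm hi]
      · have hk := (two_of hs hts ht mk mj hjk.symm).resolve_right hj
        have hm := (two_of hs hts ht mm mj hjm.symm).resolve_right hj
        linarith [fkm hk hm, fmi hm hi]
    · have hj := (two_of hs hts ht mj mi hij.symm).resolve_right hi
      have hk := (two_of hs hts ht mk mi hik.symm).resolve_right hi
      have hm := (two_of hs hts ht mm mi hmi).resolve_right hi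
      linarith [fjk hj hk, fkm hk hm]
  obtain ⟨P0, hP0, qp, qm, hq⟩ := ATline f hf u K (fun i => K i ∩ {x | f x ≤ u})
    (fun i => K i ∩ {x | u ≤ f x}) (fun i => ⟨hcv i, hcp i⟩) hcross hKp hKm dj
    (fun _ _ => Iff.rfl) c hc hL hR hAC
  refine ⟨insert qp (insert qm P0), ?_, fun i => ?_⟩
  · have e1 := Finset.card_insert_le qp (insert qm P0)
    have e2 := Finset.card_insert_le qm P0
    omega
  · rcases hq i with ⟨x, hx, hxK⟩ | h | h
    · exact ⟨x, by simp [hx], hxK⟩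
    · exact ⟨qp, by simp, h.1⟩
    · exact ⟨qm, by simp, h.1⟩

end H257R5.L
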