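import Mathlib
set_option autoImplicit false

/-! Part of the proof that `c(4,3,2) ≤ 5` (MP_8fca14_co).  Plan: helper257; this file: helper434. -/
namespace H257R5.WS


theorem sep0 (C : Set (EuclideanSpace ℝ (Fin 2))) (hC : Convex ℝ C) (hne : C.Nonempty)
    (h0 : (0 : EuclideanSpace ℝ (Fin 2)) ∉ C) :
    ∃ f : EuclideanSpace ℝ (Fin 2) →L[ℝ] ℝ, f ≠ 0 ∧ ∀ x ∈ C, f x ≤ 0 := by
  by_cases h : (interior C).Nonempty
  · have h0' : (0 : EuclideanSpace ℝ (Fin 2)) ∉ interior C := fun h' => h0 (interior_subset h')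
    obtain ⟨f, hf⟩ := geometric_hahn_banach_open_point hC.interior isOpen_interior h0'
    rw [map_zero] at hf
    refine ⟨f, ?_, ?_⟩
    · rintro rfl
      obtain ⟨x, hx⟩ := h
      have := hf x hx
      simp at this
    · intro x hx
      have h1 : x ∈ closure (interior C) := by
        rw [hC.closure_interior_eq_closure_of_nonempty_interior h]
        exact subset_closure hx
      have h2 : closure (interior C) ⊆ {y | f y ≤ 0} :=
        closure_minimal (fun y hy => (hf y hy).le) (isClosed_le f.continuous continuous_const)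
      exact h2 h1
  · have h1 : affineSpan ℝ C ≠ ⊤ := fun h' => h (hC.interior_nonempty_iff_affineSpan_eq_top.2 h')
    have h2 : vectorSpan ℝ C ≠ ⊤ := by
      intro h'
      exact h1 ((AffineSubspace.affineSpan_eq_top_iff_vectorSpan_eq_top_of_nonempty ℝ _ _ hne).2 h')
    obtain ⟨g, hg, hk⟩ := Submodule.exists_le_ker_of_lt_top _ (lt_top_iff_ne_top.2 h2)
    obtain ⟨x0, hx0⟩ := hne
    have hc : ∀ x ∈ C, g x = g x0 := by
      intro x hx
      have h3 : x - x0 ∈ LinearMap.ker g := hk (vsub_mem_vectorSpan ℝ hx hx0)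
      rw [LinearMap.mem_ker, map_sub] at h3
      linarith
    rcases le_total (g x0) 0 with h4 | h4
    · refine ⟨LinearMap.toContinuousLinearMap g, ?_, ?_⟩
      · intro h5
        apply hg
        ext x
        have := DFunLike.congr_fun h5 x
        simpa using this
      · intro x hx
        simp only [LinearMap.coe_toContinuousLinearMap']
        rw [hc x hx]
        exact h4
    · refine ⟨-LinearMap.toContinuousLinearMap g, ?_, ?_⟩
      · intro h5
        apply hg
        ext x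
        have := DFunLike.congr_fun h5 x
        simpa using this
      · intro x hx
        simp only [ContinuousLinearMap.neg_apply, LinearMap.coe_toContinuousLinearMap']
        rw [hc x hx]
        linarith

/-- TARGET. -/
theorem weak_sep (A B : Set (EuclideanSpace ℝ (Fin 2))) (p : EuclideanSpace ℝ (Fin 2))
    (hAc : Convex ℝ A) (hAk : IsCompact A) (hBc : Convex ℝ B) (hBk : IsCompact B)
    (hAB : A ∩ B = {p}) (hA : ∀ x ∈ A, ‖x‖ ≤ ‖p‖) (hB : ∀ x ∈ B, ‖x‖ ≤ ‖p‖)
    (hA1 : ∃ a ∈ A, a ≠ p) (hB1 : ∃ b ∈ B, b ≠ p) :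
    ∃ f : EuclideanSpace ℝ (Fin 2) →L[ℝ] ℝ, f ≠ 0 ∧ (∀ a ∈ A, f a ≤ f p) ∧ (∀ b ∈ B, f p ≤ f b) := by
  obtain ⟨a1, ha1, ha1p⟩ := hA1
  obtain ⟨b1, hb1, hb1p⟩ := hB1
  have hp : p ∈ A ∩ B := by
    rw [hAB]
    exact Set.mem_singleton p
  have hin : ∀ x : EuclideanSpace ℝ (Fin 2), ‖x‖ ≤ ‖p‖ → x ≠ p → inner ℝ x p < ‖p‖ ^ 2 := by
    intro x hx hne
    have h1 : 0 < ‖x - p‖ ^ 2 := by
      have := norm_pos_iff.2 (sub_ne_zero.2 hne)
      positivity
    rw [norm_sub_sq_real] at h1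
    have h2 : ‖x‖ ^ 2 ≤ ‖p‖ ^ 2 := pow_le_pow_left₀ (norm_nonneg x) hx 2
    linarith
  have key : ∀ x y : EuclideanSpace ℝ (Fin 2), ‖x‖ ≤ ‖p‖ → ‖y‖ ≤ ‖p‖ → x ≠ p → y ≠ p →
      ∀ s t : ℝ, 0 ≤ s → 0 ≤ t → s + t = 1 → s • x + t • y ≠ p := by
    intro x y hx hy hxp hyp s t hs ht hst h
    have h1 : inner ℝ (s • x + t • y) p = ‖p‖ ^ 2 := by rw [h, real_inner_self_eq_norm_sq]
    rw [inner_add_left, real_inner_smul_left, real_inner_smul_left] at h1
    have h2 := hin x hx hxp
    have h3 := hin y hy hyp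
    rcases hs.eq_or_lt with h4 | h4
    · have : t = 1 := by linarith
      subst this
      rw [← h4] at h1
      linarith
    · have h5 : s * inner ℝ x p < s * ‖p‖ ^ 2 := mul_lt_mul_of_pos_left h2 h4
      have h6 : t * inner ℝ y p ≤ t * ‖p‖ ^ 2 := mul_le_mul_of_nonneg_left h3.le ht
      have h7 : s * ‖p‖ ^ 2 + t * ‖p‖ ^ 2 = ‖p‖ ^ 2 := by rw [← add_mul, hst, one_mul]
      linarith
  have hA' : Convex ℝ (A \ {p}) := by
    intro x hx y hy s t hs ht hst
    exact ⟨hAc hx.1 hy.1 hs ht hst, key x y (hA x hx.1) (hA y hy.1) hx.2 hy.2 s t hs ht hst⟩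
  have hB' : Convex ℝ (B \ {p}) := by
    intro x hx y hy s t hs ht hst
    exact ⟨hBc hx.1 hy.1 hs ht hst, key x y (hB x hx.1) (hB y hy.1) hx.2 hy.2 s t hs ht hst⟩
  obtain ⟨f, hf0, hf⟩ := sep0 {z | ∃ a ∈ A \ {p}, ∃ b ∈ B \ {p}, z = a - b} (by
      rintro _ ⟨a, ha, b, hb, rfl⟩ _ ⟨a', ha', b', hb', rfl⟩ s t hs ht hst
      refine ⟨s • a + t • a', hA' ha ha' hs ht hst, s • b + t • b', hB' hb hb' hs ht hst, ?_⟩
      simp only [smul_sub]
      abel) ⟨a1 - b1, a1, ⟨ha1, ha1p⟩, b1, ⟨hb1, hb1p⟩, rfl⟩ (by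
      rintro ⟨a, ha, b, hb, h⟩
      have hab : a = b := (sub_eq_zero.1 h.symm)
      subst hab
      have : a ∈ A ∩ B := ⟨ha.1, hb.1⟩
      rw [hAB] at this
      exact ha.2 this)
  have hle : ∀ a ∈ A, a ≠ p → ∀ b ∈ B, b ≠ p → f a ≤ f b := by
    intro a ha hap b hb hbp
    have := hf (a - b) ⟨a, ⟨ha, hap⟩, b, ⟨hb, hbp⟩, rfl⟩
    rw [map_sub] at this
    linarith
  have hlim : ∀ u v : ℝ, (∀ s : ℝ, 0 < s → s ≤ 1 → u ≤ s * v) → u ≤ 0 := by
    intro u v h
    by_contra hu
    push Not at hu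
    have hv : 0 < v := by
      have := h 1 one_pos le_rfl
      linarith
    have hs : 0 < min 1 (u / (2 * v)) := lt_min one_pos (by positivity)
    have h1 := h _ hs (min_le_left _ _)
    have h2 : min 1 (u / (2 * v)) * v ≤ u / (2 * v) * v :=
      mul_le_mul_of_nonneg_right (min_le_right _ _) hv.le
    have h3 : u / (2 * v) * v = u / 2 := by
      field_simp
    linarith
  have hseg : ∀ x : EuclideanSpace ℝ (Fin 2), x ≠ p → ∀ s : ℝ, 0 < s → p + s • (x - p) ≠ p := by
    intro x hx s hs h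
    have h1 : s • (x - p) = 0 := by simpa using h
    rcases smul_eq_zero.1 h1 with h2 | h2
    · exact hs.ne' h2
    · exact hx (sub_eq_zero.1 h2)
  refine ⟨f, hf0, ?_, ?_⟩
  · intro a ha
    by_cases hap : a = p
    · rw [hap]
    have := hlim (f a - f p) (f (b1 - p)) (by
      intro s hs hs1
      have hmem : p + s • (b1 - p) ∈ B := by
        have := hBc hp.2 hb1 (a := 1 - s) (b := s) (by linarith) hs.le (by ring)
        convert this using 1
        rw [smul_sub, sub_smul, one_smul]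
        abel
      have h1 := hle a ha hap _ hmem (hseg b1 hb1p s hs)
      rw [map_add, map_smul, smul_eq_mul] at h1
      linarith)
    linarith
  · intro b hb
    by_cases hbp : b = p
    · rw [hbp]
    have := hlim (f p - f b) (- f (a1 - p)) (by
      intro s hs hs1
      have hmem : p + s • (a1 - p) ∈ A := by
        have := hAc hp.1 ha1 (a := 1 - s) (b := s) (by linarith) hs.le (by ring)
        convert this using 1
        rw [smul_sub, sub_smul, one_smul]
        abel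
      have h1 := hle _ hmem (hseg a1 ha1p s hs) b hb hbp
      rw [map_add, map_smul, smul_eq_mul] at h1
      linarith)
    linarith

end H257R5.WS
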