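import Mathlib
import Pool.Agent.H257R5.Five.WeakSep
import Pool.Agent.H257R5.Five.ThmL
set_option autoImplicit false

/-! Part of the proof that `c(4,3,2) ≤ 5` (MP_8fca14_co).  Plan: helper257; this file: helper406. -/
namespace H257R5.D1
open H257R5.WS H257R5.L


/-- Helly for four convex sets in the plane. -/
theorem helly4 (C₁ C₂ C₃ C₄ : Set (EuclideanSpace ℝ (Fin 2)))
    (h₁ : Convex ℝ C₁) (h₂ : Convex ℝ C₂) (h₃ : Convex ℝ C₃) (h₄ : Convex ℝ C₄)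
    (h123 : ∃ x, x ∈ C₁ ∧ x ∈ C₂ ∧ x ∈ C₃) (h124 : ∃ x, x ∈ C₁ ∧ x ∈ C₂ ∧ x ∈ C₄)
    (h134 : ∃ x, x ∈ C₁ ∧ x ∈ C₃ ∧ x ∈ C₄) (h234 : ∃ x, x ∈ C₂ ∧ x ∈ C₃ ∧ x ∈ C₄) :
    ∃ x, x ∈ C₁ ∧ x ∈ C₂ ∧ x ∈ C₃ ∧ x ∈ C₄ := by
  have key := Convex.helly_theorem (𝕜 := ℝ) (E := EuclideanSpace ℝ (Fin 2))
    (F := ![C₁, C₂, C₃, C₄]) (s := (Finset.univ : Finset (Fin 4))) (by simp)
    (by
      intro i _
      fin_cases i
      · exact h₁
      · exact h₂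
      · exact h₃
      · exact h₄)
    (by
      intro I _ hI
      have hI' : I.card = 3 := by simpa using hI
      have hdec : ∀ J : Finset (Fin 4), J.card = 3 →
          J = {0,1,2} ∨ J = {0,1,3} ∨ J = {0,2,3} ∨ J = {1,2,3} := by decide
      rcases hdec I hI' with h | h | h | h
      · obtain ⟨x, hx1, hx2, hx3⟩ := h123
        subst h
        refine ⟨x, ?_⟩
        simp [hx1, hx2, hx3]
      · obtain ⟨x, hx1, hx2, hx3⟩ := h124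
        subst h
        refine ⟨x, ?_⟩
        simp [hx1, hx2, hx3]
      · obtain ⟨x, hx1, hx2, hx3⟩ := h134
        subst h
        refine ⟨x, ?_⟩
        simp [hx1, hx2, hx3]
      · obtain ⟨x, hx1, hx2, hx3⟩ := h234
        subst h
        refine ⟨x, ?_⟩
        simp [hx1, hx2, hx3])
  obtain ⟨x, hx⟩ := key
  rw [Set.mem_iInter₂] at hx
  exact ⟨x, by simpa using hx 0 (Finset.mem_univ _), by simpa using hx 1 (Finset.mem_univ _),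
    by simpa using hx 2 (Finset.mem_univ _), by simpa using hx 3 (Finset.mem_univ _)⟩

/-- TARGET. -/
theorem case1five {ι : Type*} [Fintype ι] [DecidableEq ι] (K : ι → Set (EuclideanSpace ℝ (Fin 2)))
    (hK : ∀ i, (K i).Nonempty ∧ Convex ℝ (K i) ∧ IsCompact (K i))
    (h43 : ∀ s : Finset ι, s.card = 4 → ∃ t ⊆ s, t.card = 3 ∧ ∃ x, ∀ i ∈ t, x ∈ K i)
    (hpair : ∀ i j, (K i ∩ K j).Nonempty) :
    ∃ P : Finset (EuclideanSpace ℝ (Fin 2)), P.card ≤ 5 ∧ ∀ i, ∃ x ∈ P, x ∈ K i := by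
  classical
  rcases subsingleton_or_nontrivial ι with hsub | hnt
  · rcases isEmpty_or_nonempty ι with he | ⟨⟨i0⟩⟩
    · exact ⟨∅, by simp, fun i => (he.false i).elim⟩
    · obtain ⟨x, hx⟩ := (hK i0).1
      refine ⟨{x}, by simp, fun i => ⟨x, by simp, ?_⟩⟩
      rw [Subsingleton.elim i i0]; exact hx
  -- minimal norm points
  have hmin : ∀ i j, ∃ x, x ∈ K i ∧ x ∈ K j ∧ ∀ y, y ∈ K i → y ∈ K j → ‖x‖ ≤ ‖y‖ := by
    intro i j
    have hc : IsCompact (K i ∩ K j) := (hK i).2.2.inter (hK j).2.2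
    obtain ⟨x, hx, hxm⟩ := hc.exists_isMinOn (hpair i j) (f := fun x => ‖x‖)
      continuous_norm.continuousOn
    exact ⟨x, hx.1, hx.2, fun y hy1 hy2 => hxm (⟨hy1, hy2⟩ : y ∈ K i ∩ K j)⟩
  choose f hf1 hf2 hf3 using hmin
  obtain ⟨a0, b0, hab0⟩ := exists_pair_ne ι
  obtain ⟨⟨A, B⟩, hABm, hABmax⟩ := Finset.exists_max_image
    ((Finset.univ : Finset (ι × ι)).filter (fun q => q.1 ≠ q.2)) (fun q => ‖f q.1 q.2‖)
    ⟨(a0, b0), by simp [hab0]⟩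
  have hABne : A ≠ B := by simpa using hABm
  have hmax : ∀ i j, i ≠ j → ‖f i j‖ ≤ ‖f A B‖ := by
    intro i j hij
    exact hABmax (i, j) (by simp [hij])
  set p := f A B with hp
  have hpA : p ∈ K A := hf1 A B
  have hpB : p ∈ K B := hf2 A B
  set ρ := ‖p‖ with hρ
  -- (1)
  have h1 : ∀ i j, i ≠ j → ∃ x, x ∈ K i ∧ x ∈ K j ∧ ‖x‖ ≤ ρ :=
    fun i j hij => ⟨f i j, hf1 i j, hf2 i j, hmax i j hij⟩
  have h1' : ∀ i, ∃ x, x ∈ K i ∧ ‖x‖ ≤ ρ := by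
    intro i
    obtain ⟨j, hj⟩ := exists_ne i
    obtain ⟨x, hx, _, hx'⟩ := h1 i j hj.symm
    exact ⟨x, hx, hx'⟩
  -- (2)
  have h2 : ∀ x, x ∈ K A → x ∈ K B → ‖x‖ ≤ ρ → x = p := by
    intro x hxA hxB hxρ
    have hmA : (1/2 : ℝ) • x + (1/2 : ℝ) • p ∈ K A :=
      (hK A).2.1 hxA hpA (by norm_num) (by norm_num) (by norm_num)
    have hmB : (1/2 : ℝ) • x + (1/2 : ℝ) • p ∈ K B :=
      (hK B).2.1 hxB hpB (by norm_num) (by norm_num) (by norm_num)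
    have h := hf3 A B _ hmA hmB
    rw [← smul_add, norm_smul] at h
    have h' : ρ ≤ (1/2) * ‖x + p‖ := by
      have : ‖(1/2 : ℝ)‖ = 1/2 := by norm_num
      rw [this] at h
      exact h
    have hpar := parallelogram_law_with_norm ℝ x p
    have hρ0 : 0 ≤ ρ := norm_nonneg _
    have hx0 : 0 ≤ ‖x‖ := norm_nonneg _
    have hxp0 : 0 ≤ ‖x + p‖ := norm_nonneg _
    have hd0 : 0 ≤ ‖x - p‖ := norm_nonneg _
    have hpp : ‖p‖ = ρ := rfl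
    rw [hpp] at hpar
    have e1 : ‖x‖ * ‖x‖ ≤ ρ * ρ := by nlinarith
    have e2 : (2 * ρ) * (2 * ρ) ≤ ‖x + p‖ * ‖x + p‖ := by
      apply mul_self_le_mul_self (by positivity); linarith
    have e3 : ‖x - p‖ * ‖x - p‖ ≤ 0 := by nlinarith
    have e4 : ‖x - p‖ = 0 := by nlinarith
    exact sub_eq_zero.mp (norm_eq_zero.mp e4)
  have hQ : Convex ℝ (Metric.closedBall (0 : EuclideanSpace ℝ (Fin 2)) ρ) := convex_closedBall _ _
  have hQm : ∀ x : EuclideanSpace ℝ (Fin 2), x ∈ Metric.closedBall (0 : EuclideanSpace ℝ (Fin 2)) ρ ↔ ‖x‖ ≤ ρ := by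
    intro x; simp
  -- (3)
  have h3 : ∀ i j k, i ≠ j → i ≠ k → j ≠ k → (∃ x, x ∈ K i ∧ x ∈ K j ∧ x ∈ K k) →
      ∃ x, x ∈ K i ∧ x ∈ K j ∧ x ∈ K k ∧ ‖x‖ ≤ ρ := by
    intro i j k hij hik hjk hx
    obtain ⟨x, hx1, hx2, hx3, hx4⟩ := helly4 (K i) (K j) (K k) (Metric.closedBall 0 ρ)
      (hK i).2.1 (hK j).2.1 (hK k).2.1 hQ hx
      (by obtain ⟨y, hy1, hy2, hy3⟩ := h1 i j hij; exact ⟨y, hy1, hy2, (hQm y).2 hy3⟩)
      (by obtain ⟨y, hy1, hy2, hy3⟩ := h1 i k hik; exact ⟨y, hy1, hy2, (hQm y).2 hy3⟩)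
      (by obtain ⟨y, hy1, hy2, hy3⟩ := h1 j k hjk; exact ⟨y, hy1, hy2, (hQm y).2 hy3⟩)
    exact ⟨x, hx1, hx2, hx3, (hQm x).1 hx4⟩
  have hQk : IsCompact (Metric.closedBall (0 : EuclideanSpace ℝ (Fin 2)) ρ) := isCompact_closedBall _ _
  let K' : ι → Set (EuclideanSpace ℝ (Fin 2)) := fun i => K i ∩ Metric.closedBall 0 ρ
  have hK'm : ∀ i x, x ∈ K' i ↔ x ∈ K i ∧ ‖x‖ ≤ ρ := by
    intro i x
    exact ⟨fun h => ⟨h.1, (hQm x).1 h.2⟩, fun h => ⟨h.1, (hQm x).2 h.2⟩⟩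
  have hK' : ∀ i, (K' i).Nonempty ∧ Convex ℝ (K' i) ∧ IsCompact (K' i) := by
    intro i
    obtain ⟨x, hx, hx'⟩ := h1' i
    exact ⟨⟨x, (hK'm i x).2 ⟨hx, hx'⟩⟩, (hK i).2.1.inter hQ, (hK i).2.2.inter hQk⟩
  have h43' : ∀ s : Finset ι, s.card = 4 → ∃ t ⊆ s, t.card = 3 ∧ ∃ x, ∀ i ∈ t, x ∈ K' i := by
    intro s hs
    obtain ⟨t, hts, htc, x, hx⟩ := h43 s hs
    refine ⟨t, hts, htc, ?_⟩
    obtain ⟨a, b, c, hab, hac, hbc, hte⟩ := Finset.card_eq_three.1 htc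
    have ha : a ∈ t := by rw [hte]; simp
    have hb : b ∈ t := by rw [hte]; simp
    have hc : c ∈ t := by rw [hte]; simp
    obtain ⟨y, hy1, hy2, hy3, hy4⟩ := h3 a b c hab hac hbc ⟨x, hx a ha, hx b hb, hx c hc⟩
    refine ⟨y, ?_⟩
    intro l hl
    rw [hte] at hl
    simp only [Finset.mem_insert, Finset.mem_singleton] at hl
    rcases hl with h | h | h
    · subst h; exact (hK'm _ _).2 ⟨hy1, hy4⟩
    · subst h; exact (hK'm _ _).2 ⟨hy2, hy4⟩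
    · subst h; exact (hK'm _ _).2 ⟨hy3, hy4⟩
  have hpair' : ∀ i j, (K' i ∩ K' j).Nonempty := by
    intro i j
    by_cases hij : i = j
    · subst hij
      obtain ⟨x, hx, hx'⟩ := h1' i
      exact ⟨x, (hK'm i x).2 ⟨hx, hx'⟩, (hK'm i x).2 ⟨hx, hx'⟩⟩
    · obtain ⟨x, hx1, hx2, hx3⟩ := h1 i j hij
      exact ⟨x, (hK'm i x).2 ⟨hx1, hx3⟩, (hK'm j x).2 ⟨hx2, hx3⟩⟩
  have hpK'A : p ∈ K' A := (hK'm A p).2 ⟨hpA, le_refl _⟩
  have hpK'B : p ∈ K' B := (hK'm B p).2 ⟨hpB, le_refl _⟩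
  by_cases hA1 : ∃ a ∈ K' A, a ≠ p
  · by_cases hB1 : ∃ b ∈ K' B, b ≠ p
    · have hint : K' A ∩ K' B = {p} := by
        ext x
        rw [Set.mem_singleton_iff]
        constructor
        · rintro ⟨ha, hb⟩
          exact h2 x ((hK'm A x).1 ha).1 ((hK'm B x).1 hb).1 ((hK'm A x).1 ha).2
        · rintro rfl
          exact ⟨hpK'A, hpK'B⟩
      obtain ⟨g, hg0, hgA, hgB⟩ := weak_sep (K' A) (K' B) p (hK' A).2.1 (hK' A).2.2 (hK' B).2.1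
        (hK' B).2.2 hint (fun x hx => ((hK'm A x).1 hx).2) (fun x hx => ((hK'm B x).1 hx).2) hA1 hB1
      obtain ⟨P, hPc, hP⟩ := thmL K' hK' h43' hpair' A B g hg0 (g p) hgA hgB
      refine ⟨P, hPc, fun i => ?_⟩
      obtain ⟨x, hxP, hxK⟩ := hP i
      exact ⟨x, hxP, ((hK'm i x).1 hxK).1⟩
    · push Not at hB1
      refine ⟨{p}, by simp, fun i => ⟨p, by simp, ?_⟩⟩
      obtain ⟨x, hx1, hx2⟩ := hpair' i B
      have := hB1 x hx2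
      rw [this] at hx1
      exact ((hK'm i p).1 hx1).1
  · push Not at hA1
    refine ⟨{p}, by simp, fun i => ⟨p, by simp, ?_⟩⟩
    obtain ⟨x, hx1, hx2⟩ := hpair' i A
    have := hA1 x hx2
    rw [this] at hx1
    exact ((hK'm i p).1 hx1).1

end H257R5.D1
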