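import Mathlib
import Pool.Agent.H257R5.Five.ATline
set_option autoImplicit false

/-! Part of the proof that `c(4,3,2) ≤ 5` (MP_8fca14_co).  Plan: helper257; this file: helper342. -/
namespace H257R5.D2
open H257R5.TL


/-- among four sets some three have a common point -/
theorem c5_four {ι : Type*} [Fintype ι] [DecidableEq ι] (K : ι → Set (EuclideanSpace ℝ (Fin 2)))
    (h43 : ∀ s : Finset ι, s.card = 4 → ∃ t ⊆ s, t.card = 3 ∧ ∃ x, ∀ i ∈ t, x ∈ K i)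
    (a b c d : ι) (hab : a ≠ b) (hac : a ≠ c) (had : a ≠ d) (hbc : b ≠ c) (hbd : b ≠ d)
    (hcd : c ≠ d) :
    (∃ x, x ∈ K a ∧ x ∈ K b ∧ x ∈ K c) ∨ (∃ x, x ∈ K a ∧ x ∈ K b ∧ x ∈ K d) ∨
    (∃ x, x ∈ K a ∧ x ∈ K c ∧ x ∈ K d) ∨ (∃ x, x ∈ K b ∧ x ∈ K c ∧ x ∈ K d) := by
  have hs : ({a, b, c, d} : Finset ι).card = 4 := by
    rw [Finset.card_insert_of_notMem, Finset.card_insert_of_notMem, Finset.card_pair hcd]
    · simp [hbc, hbd]
    · simp [hab, hac, had]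
  obtain ⟨t, hts, htc, x, hx⟩ := h43 _ hs
  have h2 : ∀ y ∈ ({a, b, c, d} : Finset ι), ∀ z ∈ ({a, b, c, d} : Finset ι), y ≠ z →
      y ∈ t ∨ z ∈ t := by
    intro y hy z hz hyz
    by_contra hcon
    push Not at hcon
    have h3 : t ⊆ (({a, b, c, d} : Finset ι).erase y).erase z := by
      intro u hu
      rw [Finset.mem_erase, Finset.mem_erase]
      refine ⟨?_, ?_, hts hu⟩
      · rintro rfl; exact hcon.2 hu
      · rintro rfl; exact hcon.1 hu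
    have h4 := Finset.card_le_card h3
    rw [Finset.card_erase_of_mem, Finset.card_erase_of_mem hy, hs, htc] at h4
    · omega
    · rw [Finset.mem_erase]; exact ⟨hyz.symm, hz⟩
  have ma : a ∈ ({a, b, c, d} : Finset ι) := by simp
  have mb : b ∈ ({a, b, c, d} : Finset ι) := by simp
  have mc : c ∈ ({a, b, c, d} : Finset ι) := by simp
  have md : d ∈ ({a, b, c, d} : Finset ι) := by simp
  by_cases ha : a ∈ t
  · by_cases hb : b ∈ t
    · by_cases hc : c ∈ t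
      · exact Or.inl ⟨x, hx a ha, hx b hb, hx c hc⟩
      · have hd := (h2 c mc d md hcd).resolve_left hc
        exact Or.inr (Or.inl ⟨x, hx a ha, hx b hb, hx d hd⟩)
    · have hc := (h2 b mb c mc hbc).resolve_left hb
      have hd := (h2 b mb d md hbd).resolve_left hb
      exact Or.inr (Or.inr (Or.inl ⟨x, hx a ha, hx c hc, hx d hd⟩))
  · have hb := (h2 a ma b mb hab).resolve_left ha
    have hc := (h2 a ma c mc hac).resolve_left ha
    have hd := (h2 a ma d md had).resolve_left ha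
    exact Or.inr (Or.inr (Or.inr ⟨x, hx b hb, hx c hc, hx d hd⟩))

/-- an index outside a set of three -/
theorem c5_other {ι : Type*} [Fintype ι] [DecidableEq ι] (hcard : 4 ≤ Fintype.card ι)
    (a b c : ι) : ∃ z, z ≠ a ∧ z ≠ b ∧ z ≠ c := by
  have h1 : ({a, b, c} : Finset ι).card < (Finset.univ : Finset ι).card := by
    rw [Finset.card_univ]
    have := Finset.card_le_three (a := a) (b := b) (c := c)
    omega
  obtain ⟨z, -, hz⟩ := Finset.exists_mem_notMem_of_card_lt_card h1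
  simp only [Finset.mem_insert, Finset.mem_singleton, not_or] at hz
  exact ⟨z, hz.1, hz.2.1, hz.2.2⟩

/-- Helly in the plane, in the form used below -/
theorem c5_helly {ι : Type*} [Fintype ι] [DecidableEq ι] (K : ι → Set (EuclideanSpace ℝ (Fin 2)))
    (hK : ∀ i, (K i).Nonempty ∧ Convex ℝ (K i) ∧ IsCompact (K i)) (S : Finset ι)
    (h2 : ∀ X ∈ S, ∀ Y ∈ S, X ≠ Y → ∃ x, x ∈ K X ∧ x ∈ K Y)
    (h3 : ∀ X ∈ S, ∀ Y ∈ S, ∀ Z ∈ S, X ≠ Y → X ≠ Z → Y ≠ Z → ∃ x, x ∈ K X ∧ x ∈ K Y ∧ x ∈ K Z) :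
    ∃ x, ∀ i ∈ S, x ∈ K i := by
  have hfr : Module.finrank ℝ (EuclideanSpace ℝ (Fin 2)) = 2 := by simp
  have hnu : (⋂ i ∈ S, K i).Nonempty := by
    refine Convex.helly_theorem' (𝕜 := ℝ) (fun i _ => (hK i).2.1) ?_
    intro J hJ hJc
    rw [hfr] at hJc
    rcases Nat.lt_or_ge J.card 1 with h0 | h0
    · have : J = ∅ := Finset.card_eq_zero.1 (by omega)
      subst this
      simp
    rcases Nat.lt_or_ge J.card 2 with h1 | h1
    · obtain ⟨X, rfl⟩ := Finset.card_eq_one.1 (by omega : J.card = 1)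
      obtain ⟨x, hx⟩ := (hK X).1
      exact ⟨x, by simpa using hx⟩
    rcases Nat.lt_or_ge J.card 3 with h2' | h2'
    · obtain ⟨X, Y, hXY, rfl⟩ := Finset.card_eq_two.1 (by omega : J.card = 2)
      obtain ⟨x, hx1, hx2⟩ := h2 X (hJ (by simp)) Y (hJ (by simp)) hXY
      refine ⟨x, ?_⟩
      simp only [Set.mem_iInter]
      intro i hi
      rw [Finset.mem_insert, Finset.mem_singleton] at hi
      rcases hi with rfl | rfl
      · exact hx1
      · exact hx2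
    · obtain ⟨X, Y, Z, hXY, hXZ, hYZ, rfl⟩ := Finset.card_eq_three.1 (by omega : J.card = 3)
      obtain ⟨x, hx1, hx2, hx3⟩ := h3 X (hJ (by simp)) Y (hJ (by simp)) Z (hJ (by simp)) hXY hXZ hYZ
      refine ⟨x, ?_⟩
      simp only [Set.mem_iInter]
      intro i hi
      rw [Finset.mem_insert, Finset.mem_insert, Finset.mem_singleton] at hi
      rcases hi with rfl | rfl | rfl
      · exact hx1
      · exact hx2
      · exact hx3
  obtain ⟨nu, hnu⟩ := hnu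
  simp only [Set.mem_iInter] at hnu
  exact ⟨nu, hnu⟩

theorem c5_main {ι : Type*} [Fintype ι] [DecidableEq ι] (K : ι → Set (EuclideanSpace ℝ (Fin 2)))
    (hK : ∀ i, (K i).Nonempty ∧ Convex ℝ (K i) ∧ IsCompact (K i))
    (h43 : ∀ s : Finset ι, s.card = 4 → ∃ t ⊆ s, t.card = 3 ∧ ∃ x, ∀ i ∈ t, x ∈ K i)
    (A B : ι) (hAB : Disjoint (K A) (K B)) (hNB : ∀ i, i ≠ A → (K i ∩ K B).Nonempty) :
    ∃ P : Finset (EuclideanSpace ℝ (Fin 2)), P.card ≤ 5 ∧ ∀ i, ∃ x ∈ P, x ∈ K i := by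
  classical
  have hneAB : A ≠ B := by
    rintro rfl
    obtain ⟨x, hx⟩ := (hK A).1
    exact Set.disjoint_left.1 hAB hx hx
  have hcv : ∀ i, Convex ℝ (K i) := fun i => (hK i).2.1
  have hcp : ∀ i, IsCompact (K i) := fun i => (hK i).2.2
  have hABx : ∀ x, x ∈ K A → x ∈ K B → False := fun x h h' => Set.disjoint_left.1 hAB h h'
  -- a separating line
  obtain ⟨f, u, v, hfA, huv, hfB'⟩ := geometric_hahn_banach_compact_closed (hcv A) (hcp A) (hcv B)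
    (hcp B).isClosed hAB
  have hfB : ∀ x ∈ K B, u < f x := fun x hx => huv.trans (hfB' x hx)
  have hf0 : f ≠ 0 := by
    rintro rfl
    obtain ⟨x, hx⟩ := (hK A).1
    obtain ⟨y, hy⟩ := (hK B).1
    have h1 := hfA x hx
    have h2 := hfB y hy
    simp only [ContinuousLinearMap.zero_apply] at h1 h2
    linarith
  have hseg : ∀ S : Set (EuclideanSpace ℝ (Fin 2)), Convex ℝ S → ∀ x ∈ S, ∀ y ∈ S, f x ≤ u →
      u ≤ f y → ∃ z ∈ S, f z = u := by
    intro S hS x hx y hy h1 h2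
    exact (hS.isPreconnected.intermediate_value hx hy f.continuous.continuousOn) ⟨h1, h2⟩
  -- (6)
  have h6 : ∀ i j, i ≠ A → i ≠ B → j ≠ A → j ≠ B → i ≠ j →
      (∃ x, x ∈ K i ∧ x ∈ K j ∧ x ∈ K A) ∨ (∃ x, x ∈ K i ∧ x ∈ K j ∧ x ∈ K B) := by
    intro i j hiA hiB hjA hjB hij
    rcases c5_four K h43 A B i j hneAB hiA.symm hjA.symm hiB.symm hjB.symm hij with
      ⟨x, h1, h2, h3⟩ | ⟨x, h1, h2, h3⟩ | ⟨x, h1, h2, h3⟩ | ⟨x, h1, h2, h3⟩
    · exact (hABx x h1 h2).elim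
    · exact (hABx x h1 h2).elim
    · exact Or.inl ⟨x, h2, h3, h1⟩
    · exact Or.inr ⟨x, h2, h3, h1⟩
  have hpair : ∀ i j, i ≠ A → j ≠ A → i ≠ j → ∃ x, x ∈ K i ∧ x ∈ K j := by
    intro i j hiA hjA hij
    by_cases hiB : i = B
    · subst hiB
      obtain ⟨x, h1, h2⟩ := hNB j hjA
      exact ⟨x, h2, h1⟩
    by_cases hjB : j = B
    · subst hjB
      obtain ⟨x, h1, h2⟩ := hNB i hiA
      exact ⟨x, h1, h2⟩
    rcases h6 i j hiA hiB hjA hjB hij with ⟨x, h1, h2, -⟩ | ⟨x, h1, h2, -⟩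
    · exact ⟨x, h1, h2⟩
    · exact ⟨x, h1, h2⟩
  set NA : Finset ι := Finset.univ.filter (fun i => i ≠ A ∧ Disjoint (K i) (K A)) with hNA
  have hmem : ∀ i, i ∈ NA ↔ i ≠ A ∧ Disjoint (K i) (K A) := by
    intro i
    rw [hNA, Finset.mem_filter]
    exact ⟨fun h => h.2, fun h => ⟨Finset.mem_univ _, h⟩⟩
  have hBNA : B ∈ NA := (hmem B).2 ⟨hneAB.symm, hAB.symm⟩
  have hdA : ∀ i ∈ NA, ∀ x, x ∈ K i → x ∈ K A → False := fun i h x h1 h2 =>
    Set.disjoint_left.1 ((hmem i).1 h).2 h1 h2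
  have hNAA : ∀ i ∈ NA, i ≠ A := fun i h => ((hmem i).1 h).1
  -- (2)
  have htrip : ∀ X ∈ NA, ∀ Y ∈ NA, ∀ Z, Z ≠ A → X ≠ Y → X ≠ Z → Y ≠ Z →
      ∃ x, x ∈ K X ∧ x ∈ K Y ∧ x ∈ K Z := by
    intro X hX Y hY Z hZA hXY hXZ hYZ
    rcases c5_four K h43 A X Y Z (hNAA X hX).symm (hNAA Y hY).symm hZA.symm hXY hXZ hYZ with
      ⟨x, h1, h2, h3⟩ | ⟨x, h1, h2, h3⟩ | ⟨x, h1, h2, h3⟩ | ⟨x, h1, h2, h3⟩
    · exact (hdA X hX x h2 h1).elim
    · exact (hdA X hX x h2 h1).elim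
    · exact (hdA Y hY x h2 h1).elim
    · exact ⟨x, h1, h2, h3⟩
  -- Helly for a few indices together with all of `NA`
  have hel : ∀ S : Finset ι, (∀ i ∈ S, i ≠ A ∧ i ∉ NA) →
      (∀ i ∈ S, ∀ j ∈ S, i ≠ j → ∀ x, x ∈ K i → x ∈ K j → x ∉ K A) →
      (∀ i ∈ S, ∀ j ∈ S, ∀ k ∈ S, i ≠ j → i ≠ k → j ≠ k → ∃ x, x ∈ K i ∧ x ∈ K j ∧ x ∈ K k) →
      ∃ x, (∀ i ∈ S, x ∈ K i) ∧ ∀ m ∈ NA, x ∈ K m := by
    intro S hS hSA hS3
    have hm1 : ∀ i ∈ S, ∀ j ∈ S, ∀ m ∈ NA, i ≠ j → ∃ x, x ∈ K i ∧ x ∈ K j ∧ x ∈ K m := by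
      intro i hi j hj m hm hij
      have him : i ≠ m := fun h => (hS i hi).2 (h ▸ hm)
      have hjm : j ≠ m := fun h => (hS j hj).2 (h ▸ hm)
      rcases c5_four K h43 A i j m (hS i hi).1.symm (hS j hj).1.symm (hNAA m hm).symm hij him hjm
        with ⟨x, h1, h2, h3⟩ | ⟨x, h1, h2, h3⟩ | ⟨x, h1, h2, h3⟩ | ⟨x, h1, h2, h3⟩
      · exact (hSA i hi j hj hij x h2 h3 h1).elim
      · exact (hdA m hm x h3 h1).elim
      · exact (hdA m hm x h3 h1).elim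
      · exact ⟨x, h1, h2, h3⟩
    obtain ⟨x, hx⟩ := c5_helly K hK (S ∪ NA) (by
      intro X hX Y hY hXY
      rw [Finset.mem_union] at hX hY
      have hXA : X ≠ A := hX.elim (fun h => (hS X h).1) (hNAA X)
      have hYA : Y ≠ A := hY.elim (fun h => (hS Y h).1) (hNAA Y)
      exact hpair X Y hXA hYA hXY) (by
      intro X hX Y hY Z hZ hXY hXZ hYZ
      rw [Finset.mem_union] at hX hY hZ
      have hXA : X ≠ A := hX.elim (fun h => (hS X h).1) (hNAA X)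
      have hYA : Y ≠ A := hY.elim (fun h => (hS Y h).1) (hNAA Y)
      have hZA : Z ≠ A := hZ.elim (fun h => (hS Z h).1) (hNAA Z)
      rcases hX with hX | hX
      · rcases hY with hY | hY
        · rcases hZ with hZ | hZ
          · exact hS3 X hX Y hY Z hZ hXY hXZ hYZ
          · exact hm1 X hX Y hY Z hZ hXY
        · rcases hZ with hZ | hZ
          · obtain ⟨x, h1, h2, h3⟩ := hm1 X hX Z hZ Y hY hXZ
            exact ⟨x, h1, h3, h2⟩
          · obtain ⟨x, h1, h2, h3⟩ := htrip Y hY Z hZ X hXA hYZ hXY.symm hXZ.symm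
            exact ⟨x, h3, h1, h2⟩
      · rcases hY with hY | hY
        · rcases hZ with hZ | hZ
          · obtain ⟨x, h1, h2, h3⟩ := hm1 Y hY Z hZ X hX hYZ
            exact ⟨x, h3, h1, h2⟩
          · obtain ⟨x, h1, h2, h3⟩ := htrip X hX Z hZ Y hYA hXZ hXY hYZ.symm
            exact ⟨x, h1, h3, h2⟩
        · exact htrip X hX Y hY Z hZA hXY hXZ hYZ)
    exact ⟨x, fun i hi => hx i (Finset.mem_union_left _ hi), fun m hm =>
      hx m (Finset.mem_union_right _ hm)⟩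
  -- the common part of the members of `NA`
  set Bs : Set (EuclideanSpace ℝ (Fin 2)) := ⋂ m ∈ NA, K m with hBs
  have hBsm : ∀ x, x ∈ Bs ↔ ∀ m ∈ NA, x ∈ K m := by
    intro x
    rw [hBs, Set.mem_iInter₂]
  have hBsB : ∀ x ∈ Bs, x ∈ K B := fun x hx => (hBsm x).1 hx B hBNA
  have hBscv : Convex ℝ Bs := convex_iInter₂ fun m _ => hcv m
  have hBscl : IsClosed Bs := isClosed_biInter fun m _ => (hcp m).isClosed
  have hBsne : Bs.Nonempty := by
    obtain ⟨x, -, hx⟩ := hel ∅ (by simp) (by simp) (by simp)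
    exact ⟨x, (hBsm x).2 hx⟩
  -- the remaining indices
  have hiA : ∀ i : {i : ι // i ≠ A ∧ i ∉ NA}, i.1 ≠ A := fun i => i.2.1
  have hiB : ∀ i : {i : ι // i ≠ A ∧ i ∉ NA}, i.1 ≠ B := fun i h => i.2.2 (h ▸ hBNA)
  have hKA : ∀ i : {i : ι // i ≠ A ∧ i ∉ NA}, (K i.1 ∩ K A).Nonempty := by
    intro i
    by_contra hcon
    exact i.2.2 ((hmem i.1).2 ⟨i.2.1,
      Set.disjoint_iff_inter_eq_empty.2 (Set.not_nonempty_iff_eq_empty.1 hcon)⟩)
  have hKBs : ∀ i : {i : ι // i ≠ A ∧ i ∉ NA}, (K i.1 ∩ Bs).Nonempty := by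
    intro i
    obtain ⟨x, h1, h2⟩ := hel {i.1} (by
      intro j hj
      rw [Finset.mem_singleton] at hj
      subst hj
      exact i.2) (by
      intro j hj k hk hjk
      rw [Finset.mem_singleton] at hj hk
      exact (hjk (hj.trans hk.symm)).elim) (by
      intro j hj k hk l hl hjk
      rw [Finset.mem_singleton] at hj hk
      exact (hjk (hj.trans hk.symm)).elim)
    exact ⟨x, h1 _ (Finset.mem_singleton_self _), (hBsm x).2 h2⟩
  have hcross : ∀ i : {i : ι // i ≠ A ∧ i ∉ NA}, ∃ x ∈ K i.1, f x = u := by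
    intro i
    obtain ⟨x, hx1, hx2⟩ := hKA i
    obtain ⟨y, hy1, hy2⟩ := hKBs i
    exact hseg (K i.1) (hcv _) x hx1 y hy1 (hfA x hx2).le (hfB y (hBsB y hy2)).le
  let dj : {i : ι // i ≠ A ∧ i ∉ NA} → {i : ι // i ≠ A ∧ i ∉ NA} → Prop := fun i j =>
    ∀ x, x ∈ K i.1 → x ∈ K j.1 → f x ≠ u
  let c : {i : ι // i ≠ A ∧ i ∉ NA} → {i : ι // i ≠ A ∧ i ∉ NA} → Prop := fun i j =>
    ∃ x, x ∈ K i.1 ∧ x ∈ K j.1 ∧ f x < u
  have hc : ∀ i j, c i j ↔ c j i := fun i j =>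
    ⟨fun ⟨x, h1, h2, h3⟩ => ⟨x, h2, h1, h3⟩, fun ⟨x, h1, h2, h3⟩ => ⟨x, h2, h1, h3⟩⟩
  have hne' : ∀ i j, dj i j → i.1 ≠ j.1 := by
    intro i j h hij
    obtain ⟨x, hx, hfx⟩ := hcross i
    exact h x hx (hij ▸ hx) hfx
  have h1 : ∀ i j, dj i j → c i j → ∀ x, x ∈ K i.1 → x ∈ K j.1 → f x < u := by
    intro i j hd hcij x hxi hxj
    by_contra hcon
    obtain ⟨y, hyi, hyj, hfy⟩ := hcij
    obtain ⟨z, ⟨hzi, hzj⟩, hfz⟩ := hseg (K i.1 ∩ K j.1) ((hcv _).inter (hcv _)) y ⟨hyi, hyj⟩ x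
      ⟨hxi, hxj⟩ hfy.le (not_lt.1 hcon)
    exact hd z hzi hzj hfz
  have h2 : ∀ i j, dj i j → ¬ c i j → ∀ x, x ∈ K i.1 → x ∈ K j.1 → u < f x := by
    intro i j hd hcij x hxi hxj
    rcases lt_trichotomy (f x) u with h | h | h
    · exact absurd ⟨x, hxi, hxj, h⟩ hcij
    · exact absurd h (hd x hxi hxj)
    · exact h
  have hpA : ∀ i j, dj i j → c i j → ∃ x, x ∈ K i.1 ∧ x ∈ K j.1 ∧ x ∈ K A := by
    intro i j hd hcij
    rcases h6 i.1 j.1 (hiA i) (hiB i) (hiA j) (hiB j) (hne' i j hd) with h | ⟨x, hxi, hxj, hxB⟩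
    · exact h
    · exact absurd (hfB x hxB) (not_lt.2 (h1 i j hd hcij x hxi hxj).le)
  have hnA : ∀ i j, dj i j → ¬ c i j → ∀ x, x ∈ K i.1 → x ∈ K j.1 → x ∉ K A := by
    intro i j hd hcij x hxi hxj hxA
    exact absurd (hfA x hxA) (not_lt.2 (h2 i j hd hcij x hxi hxj).le)
  have hnB : ∀ i j, dj i j → c i j → ∀ x, x ∈ K i.1 → x ∈ K j.1 → x ∉ K B := by
    intro i j hd hcij x hxi hxj hxB
    exact absurd (hfB x hxB) (not_lt.2 (h1 i j hd hcij x hxi hxj).le)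
  -- three sets
  have htri : ∀ (D : ι) (i j k : {i : ι // i ≠ A ∧ i ∉ NA}), D ≠ i.1 → D ≠ j.1 → D ≠ k.1 →
      i.1 ≠ j.1 → j.1 ≠ k.1 → i.1 ≠ k.1 →
      (∀ x, x ∈ K i.1 → x ∈ K j.1 → x ∉ K D) → (∀ x, x ∈ K j.1 → x ∈ K k.1 → x ∉ K D) →
      (∀ x, x ∈ K i.1 → x ∈ K k.1 → x ∉ K D) → ∃ x, x ∈ K i.1 ∧ x ∈ K j.1 ∧ x ∈ K k.1 := by
    intro D i j k hDi hDj hDk hij hjk hik e1 e2 e3
    rcases c5_four K h43 D i.1 j.1 k.1 hDi hDj hDk hij hik hjk with
      ⟨x, g1, g2, g3⟩ | ⟨x, g1, g2, g3⟩ | ⟨x, g1, g2, g3⟩ | ⟨x, g1, g2, g3⟩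
    · exact (e1 x g2 g3 g1).elim
    · exact (e3 x g2 g3 g1).elim
    · exact (e2 x g2 g3 g1).elim
    · exact ⟨x, g1, g2, g3⟩
  have hL : ∀ i j k, dj i j → dj j k → dj i k → c i j → c j k → c i k →
      ∃ y, y ∈ K i.1 ∩ K A ∧ y ∈ K j.1 ∩ K A ∧ y ∈ K k.1 ∩ K A := by
    intro i j k dij djk dik cij cjk cik
    have hij := hne' i j dij
    have hjk := hne' j k djk
    have hik := hne' i k dik
    obtain ⟨x0, g1, g2, g3⟩ := htri B i j k (hiB i).symm (hiB j).symm (hiB k).symm hij hjk hik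
      (hnB i j dij cij) (hnB j k djk cjk) (hnB i k dik cik)
    obtain ⟨xij, ij1, ij2, ij3⟩ := hpA i j dij cij
    obtain ⟨xjk, jk1, jk2, jk3⟩ := hpA j k djk cjk
    obtain ⟨xik, ik1, ik2, ik3⟩ := hpA i k dik cik
    obtain ⟨x, hx⟩ := c5_helly K hK {i.1, j.1, k.1, A} (by
      intro X hX Y hY hXY
      simp only [Finset.mem_insert, Finset.mem_singleton] at hX hY
      rcases hX with rfl | rfl | rfl | rfl <;> rcases hY with rfl | rfl | rfl | rfl <;>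
      first
      | exact (hXY rfl).elim
      | exact ⟨_, ij1, ij2⟩
      | exact ⟨_, ij2, ij1⟩
      | exact ⟨_, ij1, ij3⟩
      | exact ⟨_, ij3, ij1⟩
      | exact ⟨_, ij2, ij3⟩
      | exact ⟨_, ij3, ij2⟩
      | exact ⟨_, jk1, jk2⟩
      | exact ⟨_, jk2, jk1⟩
      | exact ⟨_, jk2, jk3⟩
      | exact ⟨_, jk3, jk2⟩
      | exact ⟨_, ik1, ik2⟩
      | exact ⟨_, ik2, ik1⟩) (by
      intro X hX Y hY Z hZ hXY hXZ hYZ
      simp only [Finset.mem_insert, Finset.mem_singleton] at hX hY hZ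
      rcases hX with rfl | rfl | rfl | rfl <;> rcases hY with rfl | rfl | rfl | rfl <;>
      first
      | exact (hXY rfl).elim
      | (rcases hZ with rfl | rfl | rfl | rfl <;>
         first
         | exact (hXZ rfl).elim
         | exact (hYZ rfl).elim
         | exact ⟨_, g1, g2, g3⟩
         | exact ⟨_, g1, g3, g2⟩
         | exact ⟨_, g2, g1, g3⟩
         | exact ⟨_, g2, g3, g1⟩
         | exact ⟨_, g3, g1, g2⟩
         | exact ⟨_, g3, g2, g1⟩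
         | exact ⟨_, ij1, ij2, ij3⟩
         | exact ⟨_, ij1, ij3, ij2⟩
         | exact ⟨_, ij2, ij1, ij3⟩
         | exact ⟨_, ij2, ij3, ij1⟩
         | exact ⟨_, ij3, ij1, ij2⟩
         | exact ⟨_, ij3, ij2, ij1⟩
         | exact ⟨_, jk1, jk2, jk3⟩
         | exact ⟨_, jk1, jk3, jk2⟩
         | exact ⟨_, jk2, jk1, jk3⟩
         | exact ⟨_, jk2, jk3, jk1⟩
         | exact ⟨_, jk3, jk1, jk2⟩
         | exact ⟨_, jk3, jk2, jk1⟩
         | exact ⟨_, ik1, ik2, ik3⟩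
         | exact ⟨_, ik1, ik3, ik2⟩
         | exact ⟨_, ik2, ik1, ik3⟩
         | exact ⟨_, ik2, ik3, ik1⟩
         | exact ⟨_, ik3, ik1, ik2⟩
         | exact ⟨_, ik3, ik2, ik1⟩))
    have hA := hx A (by simp)
    exact ⟨x, ⟨hx i.1 (by simp), hA⟩, ⟨hx j.1 (by simp), hA⟩, ⟨hx k.1 (by simp), hA⟩⟩
  have hR : ∀ i j k, dj i j → dj j k → dj i k → ¬ c i j → ¬ c j k → ¬ c i k →
      ∃ y, y ∈ K i.1 ∩ Bs ∧ y ∈ K j.1 ∩ Bs ∧ y ∈ K k.1 ∩ Bs := by
    intro i j k dij djk dik cij cjk cik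
    have hij := hne' i j dij
    have hjk := hne' j k djk
    have hik := hne' i k dik
    obtain ⟨x0, g1, g2, g3⟩ := htri A i j k (hiA i).symm (hiA j).symm (hiA k).symm hij hjk hik
      (hnA i j dij cij) (hnA j k djk cjk) (hnA i k dik cik)
    obtain ⟨x, hx1, hx2⟩ := hel {i.1, j.1, k.1} (by
      intro X hX
      simp only [Finset.mem_insert, Finset.mem_singleton] at hX
      rcases hX with rfl | rfl | rfl
      · exact i.2
      · exact j.2
      · exact k.2) (by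
      intro X hX Y hY hXY x
      simp only [Finset.mem_insert, Finset.mem_singleton] at hX hY
      rcases hX with rfl | rfl | rfl <;> rcases hY with rfl | rfl | rfl
      · exact (hXY rfl).elim
      · exact hnA i j dij cij x
      · exact hnA i k dik cik x
      · exact fun a b => hnA i j dij cij x b a
      · exact (hXY rfl).elim
      · exact hnA j k djk cjk x
      · exact fun a b => hnA i k dik cik x b a
      · exact fun a b => hnA j k djk cjk x b a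
      · exact (hXY rfl).elim) (by
      intro X hX Y hY Z hZ hXY hXZ hYZ
      simp only [Finset.mem_insert, Finset.mem_singleton] at hX hY hZ
      rcases hX with rfl | rfl | rfl <;> rcases hY with rfl | rfl | rfl <;>
      first
      | exact (hXY rfl).elim
      | (rcases hZ with rfl | rfl | rfl <;>
         first
         | exact (hXZ rfl).elim
         | exact (hYZ rfl).elim
         | exact ⟨_, g1, g2, g3⟩
         | exact ⟨_, g1, g3, g2⟩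
         | exact ⟨_, g2, g1, g3⟩
         | exact ⟨_, g2, g3, g1⟩
         | exact ⟨_, g3, g1, g2⟩
         | exact ⟨_, g3, g2, g1⟩))
    have hB := (hBsm x).2 hx2
    exact ⟨x, ⟨hx1 i.1 (by simp), hB⟩, ⟨hx1 j.1 (by simp), hB⟩, ⟨hx1 k.1 (by simp), hB⟩⟩
  have hAC : ∀ i j k m, dj i j → dj j k → dj k m → dj m i → c i j → ¬ c j k → c k m → c m i := by
    intro i j k m dij djk dkm dmi cij cjk ckm
    by_contra cmi
    have hik : i.1 ≠ k.1 := by
      intro h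
      have h' : i = k := Subtype.ext h
      subst h'
      exact cjk ((hc _ _).1 cij)
    have hjm : j.1 ≠ m.1 := by
      intro h
      have h' : j = m := Subtype.ext h
      subst h'
      exact cjk ((hc _ _).1 ckm)
    have hij := hne' i j dij
    have hjk := hne' j k djk
    have hkm := hne' k m dkm
    have hmi := hne' m i dmi
    rcases c5_four K h43 i.1 j.1 k.1 m.1 hij hik hmi.symm hjk hjm hkm with
      ⟨x, g1, g2, g3⟩ | ⟨x, g1, g2, g3⟩ | ⟨x, g1, g2, g3⟩ | ⟨x, g1, g2, g3⟩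
    · linarith [h1 i j dij cij x g1 g2, h2 j k djk cjk x g2 g3]
    · linarith [h1 i j dij cij x g1 g2, h2 m i dmi cmi x g3 g1]
    · linarith [h1 k m dkm ckm x g2 g3, h2 m i dmi cmi x g3 g1]
    · linarith [h1 k m dkm ckm x g2 g3, h2 j k djk cjk x g1 g2]
  obtain ⟨P, hP3, qp, qm, hq⟩ := ATline f hf0 u (fun i : {i : ι // i ≠ A ∧ i ∉ NA} => K i.1)
    (fun i => K i.1 ∩ K A) (fun i => K i.1 ∩ Bs) (fun i => ⟨hcv i.1, hcp i.1⟩) hcross
    (fun i => ⟨hKA i, (hcv _).inter (hcv _), (hcp _).inter_right (hcp _).isClosed⟩)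
    (fun i => ⟨hKBs i, (hcv _).inter hBscv, (hcp _).inter_right hBscl⟩) dj
    (fun _ _ => Iff.rfl) c hc hL hR hAC
  obtain ⟨xA, hxA⟩ := (hK A).1
  obtain ⟨xB, hxB⟩ := hBsne
  obtain ⟨qp', hqp'A, hqp'⟩ : ∃ q, q ∈ K A ∧ (qp ∈ K A → q = qp) := by
    by_cases h : qp ∈ K A
    · exact ⟨qp, h, fun _ => rfl⟩
    · exact ⟨xA, hxA, fun h' => absurd h' h⟩
  obtain ⟨qm', hqm'B, hqm'⟩ : ∃ q, q ∈ Bs ∧ (qm ∈ Bs → q = qm) := by
    by_cases h : qm ∈ Bs
    · exact ⟨qm, h, fun _ => rfl⟩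
    · exact ⟨xB, hxB, fun h' => absurd h' h⟩
  refine ⟨insert qp' (insert qm' P), ?_, fun i => ?_⟩
  · have e1 := Finset.card_insert_le qp' (insert qm' P)
    have e2 := Finset.card_insert_le qm' P
    omega
  by_cases hiA' : i = A
  · subst hiA'
    exact ⟨qp', by simp, hqp'A⟩
  by_cases hiN : i ∈ NA
  · exact ⟨qm', by simp, (hBsm qm').1 hqm'B i hiN⟩
  rcases hq ⟨i, hiA', hiN⟩ with ⟨x, hx, hxi⟩ | h | h
  · exact ⟨x, by simp [hx], hxi⟩
  · refine ⟨qp', by simp, ?_⟩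
    rw [hqp' h.2]
    exact h.1
  · refine ⟨qm', by simp, ?_⟩
    rw [hqm' h.2]
    exact h.1

/-- TARGET. -/
theorem case2five {ι : Type*} [Fintype ι] [DecidableEq ι] (K : ι → Set (EuclideanSpace ℝ (Fin 2)))
    (hK : ∀ i, (K i).Nonempty ∧ Convex ℝ (K i) ∧ IsCompact (K i))
    (h43 : ∀ s : Finset ι, s.card = 4 → ∃ t ⊆ s, t.card = 3 ∧ ∃ x, ∀ i ∈ t, x ∈ K i)
    (A B : ι) (hAB : Disjoint (K A) (K B)) :
    ∃ P : Finset (EuclideanSpace ℝ (Fin 2)), P.card ≤ 5 ∧ ∀ i, ∃ x ∈ P, x ∈ K i := by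
  classical
  rcases Nat.lt_or_ge (Fintype.card ι) 4 with hcard | hcard
  · choose f hf using fun i => (hK i).1
    refine ⟨Finset.univ.image f, Finset.card_image_le.trans ?_, fun i =>
      ⟨f i, Finset.mem_image_of_mem f (Finset.mem_univ i), hf i⟩⟩
    rw [Finset.card_univ]
    omega
  have hneAB : A ≠ B := by
    rintro rfl
    obtain ⟨x, hx⟩ := (hK A).1
    exact Set.disjoint_left.1 hAB hx hx
  by_cases hNB : ∀ i, i ≠ A → (K i ∩ K B).Nonempty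
  · exact c5_main K hK h43 A B hAB hNB
  by_cases hNA : ∀ i, i ≠ B → (K i ∩ K A).Nonempty
  · exact c5_main K hK h43 B A hAB.symm hNA
  exfalso
  push Not at hNB hNA
  obtain ⟨D, hDA, hD⟩ := hNB
  obtain ⟨C, hCB, hC⟩ := hNA
  have hDB : D ≠ B := by
    rintro rfl
    obtain ⟨x, hx⟩ := (hK D).1
    have : x ∈ K D ∩ K D := ⟨hx, hx⟩
    rw [hD] at this
    exact this
  have hCA : C ≠ A := by
    rintro rfl
    obtain ⟨x, hx⟩ := (hK C).1
    have : x ∈ K C ∩ K C := ⟨hx, hx⟩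
    rw [hC] at this
    exact this
  have dAB : ∀ x, x ∈ K A → x ∈ K B → False := fun x h1 h2 => Set.disjoint_left.1 hAB h1 h2
  have dDB : ∀ x, x ∈ K D → x ∈ K B → False := fun x h1 h2 => by
    have : x ∈ K D ∩ K B := ⟨h1, h2⟩
    rw [hD] at this
    exact this
  have dCA : ∀ x, x ∈ K C → x ∈ K A → False := fun x h1 h2 => by
    have : x ∈ K C ∩ K A := ⟨h1, h2⟩
    rw [hC] at this
    exact this
  by_cases hCD : C = D
  · subst hCD
    obtain ⟨X, hXA, hXB, hXC⟩ := c5_other hcard A B C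
    rcases c5_four K h43 A B C X hneAB hCA.symm hXA.symm hCB.symm hXB.symm hXC.symm with
      ⟨x, h1, h2, h3⟩ | ⟨x, h1, h2, h3⟩ | ⟨x, h1, h2, h3⟩ | ⟨x, h1, h2, h3⟩
    · exact dAB x h1 h2
    · exact dAB x h1 h2
    · exact dCA x h2 h1
    · exact dDB x h2 h1
  · rcases c5_four K h43 A B C D hneAB hCA.symm hDA.symm hCB.symm hDB.symm hCD with
      ⟨x, h1, h2, h3⟩ | ⟨x, h1, h2, h3⟩ | ⟨x, h1, h2, h3⟩ | ⟨x, h1, h2, h3⟩
    · exact dAB x h1 h2
    · exact dAB x h1 h2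
    · exact dCA x h2 h1
    · exact dDB x h3 h1

end H257R5.D2
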