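import Mathlib
import Pool.Agent.H257R5.Five.Case1
import Pool.Agent.H257R5.Five.Case2
set_option autoImplicit false

/-! `c(4,3,2) ≤ 5` (MP_8fca14_co): final assembly. -/
namespace H257R5.M5
open H257R5.D1 H257R5.D2

/-- Shrinking convex sets to compact convex sets with the same intersection pattern. -/
theorem shrink_M {ι : Type*} [Fintype ι] (F : ι → Set (EuclideanSpace ℝ (Fin 2)))
    (hF : ∀ i, (F i).Nonempty ∧ Convex ℝ (F i)) :
    ∃ K : ι → Set (EuclideanSpace ℝ (Fin 2)),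
      (∀ i, (K i).Nonempty ∧ Convex ℝ (K i) ∧ IsCompact (K i)) ∧ (∀ i, K i ⊆ F i) ∧
      ∀ t : Finset ι, (∃ x, ∀ i ∈ t, x ∈ F i) → ∃ x, ∀ i ∈ t, x ∈ K i := by
  classical
  let w : Finset ι → EuclideanSpace ℝ (Fin 2) := fun J =>
    if h : ∃ x, ∀ i ∈ J, x ∈ F i then h.choose else 0
  have hw : ∀ J : Finset ι, (∃ x, ∀ i ∈ J, x ∈ F i) → ∀ i ∈ J, w J ∈ F i := by
    intro J hJ
    have : w J = hJ.choose := dif_pos hJ
    rw [this]
    exact hJ.choose_spec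
  let W : ι → Set (EuclideanSpace ℝ (Fin 2)) := fun i =>
    w '' {J : Finset ι | i ∈ J ∧ ∃ x, ∀ j ∈ J, x ∈ F j}
  have hWfin : ∀ i, (W i).Finite := fun i => (Set.toFinite _).image _
  have hWmem : ∀ (i : ι) (J : Finset ι), i ∈ J → (∃ x, ∀ j ∈ J, x ∈ F j) → w J ∈ W i :=
    fun i J hi hJ => ⟨J, ⟨hi, hJ⟩, rfl⟩
  refine ⟨fun i => convexHull ℝ (W i), fun i => ⟨?_, convex_convexHull ℝ _,
    Set.Finite.isCompact_convexHull (𝕜 := ℝ) (hWfin i)⟩, fun i => ?_, fun t ht => ?_⟩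
  · have h1 : ∃ x, ∀ j ∈ ({i} : Finset ι), x ∈ F j := by
      obtain ⟨x, hx⟩ := (hF i).1
      refine ⟨x, fun j hj => ?_⟩
      rw [Finset.mem_singleton] at hj
      rw [hj]; exact hx
    exact ⟨_, subset_convexHull ℝ _ (hWmem i {i} (Finset.mem_singleton_self i) h1)⟩
  · refine convexHull_min ?_ (hF i).2
    rintro x ⟨J, ⟨hi, hJ⟩, rfl⟩
    exact hw J hJ i hi
  · exact ⟨w t, fun i hi => subset_convexHull ℝ _ (hWmem i t hi ht)⟩

/-- Every finite family of nonempty convex sets in the plane with the (4,3)-property is pierced by five points. -/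
theorem five_points {ι : Type*} [Fintype ι] (F : ι → Set (EuclideanSpace ℝ (Fin 2)))
    (hF : ∀ i, (F i).Nonempty ∧ Convex ℝ (F i))
    (h43 : ∀ s : Finset ι, s.card = 4 → ∃ t ⊆ s, t.card = 3 ∧ ∃ x, ∀ i ∈ t, x ∈ F i) :
    ∃ P : Finset (EuclideanSpace ℝ (Fin 2)), P.card ≤ 5 ∧ ∀ i, ∃ x ∈ P, x ∈ F i := by
  classical
  obtain ⟨K, hK, hKF, hKt⟩ := shrink_M F hF
  have h43' : ∀ s : Finset ι, s.card = 4 → ∃ t ⊆ s, t.card = 3 ∧ ∃ x, ∀ i ∈ t, x ∈ K i := by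
    intro s hs
    obtain ⟨t, ht, hc, hx⟩ := h43 s hs
    exact ⟨t, ht, hc, hKt t hx⟩
  have hfin : ∃ P : Finset (EuclideanSpace ℝ (Fin 2)), P.card ≤ 5 ∧ ∀ i, ∃ x ∈ P, x ∈ K i := by
    by_cases hpair : ∀ i j, (K i ∩ K j).Nonempty
    · exact case1five K hK h43' hpair
    · push Not at hpair
      obtain ⟨A, B, hAB⟩ := hpair
      exact case2five K hK h43' A B (Set.disjoint_iff_inter_eq_empty.2 hAB)
  obtain ⟨P, hP, h⟩ := hfin
  refine ⟨P, hP, fun i => ?_⟩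
  obtain ⟨x, hx, hxi⟩ := h i
  exact ⟨x, hx, hKF i hxi⟩

end H257R5.M5
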